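import Mathlib
import Pool.Agent.K3h48.PS.Stm

set_option autoImplicit false

/-!
# Brick REC: a transfinite recursion of length `ω₁`
-/

namespace Pool.Agent.K3h58.PS

open Set K3h48.PS

universe u v

/-- a well-order of length `ω₁` -/
theorem exists_omega1 : ∃ (W : Type) (_ : LinearOrder W), WellFoundedLT W ∧ Uncountable W ∧
    ∀ a : W, (Iio a).Countable := by
  refine ⟨(Cardinal.aleph 1 : Cardinal.{0}).ord.ToType, inferInstance, inferInstance, ?_, ?_⟩
  · rw [← Cardinal.aleph0_lt_mk_iff, Cardinal.mk_toType, Cardinal.card_ord,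
      ← Cardinal.aleph_zero]
    exact Cardinal.aleph_lt_aleph.2 zero_lt_one
  · intro a
    have h := Cardinal.mk_Iio_toType_ord_lt a
    rw [← Cardinal.le_aleph0_iff_set_countable, ← Cardinal.aleph_zero, ← Order.lt_succ_iff,
      Cardinal.succ_aleph, zero_add]
    exact h

theorem rec : t_REC.{u, v} := by
  intro L _ Y f H1 H2
  classical
  obtain ⟨W, _, hwf, hunc, hIio⟩ := exists_omega1
  obtain ⟨p0, q0, r0, -⟩ := H2 ∅ countable_empty
  have hF : ∃ F : Set L → L × L × L, ∀ D : Set L, D.Countable →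
      (F D).1 < (F D).2.1 ∧ (F D).2.1 < (F D).2.2 ∧ Disjoint (Icc (F D).1 (F D).2.2) D ∧
        f (F D).1 ≠ f (F D).2.1 ∧ f (F D).2.1 ≠ f (F D).2.2 := by
    refine ⟨fun D => if h : D.Countable then
      ((H2 D h).choose, (H2 D h).choose_spec.choose, (H2 D h).choose_spec.choose_spec.choose)
      else (p0, q0, r0), fun D h => ?_⟩
    simp only [dif_pos h]
    exact (H2 D h).choose_spec.choose_spec.choose_spec
  obtain ⟨F, hF⟩ := hF
  obtain ⟨g, hg⟩ : ∃ g : W → L × L × L, ∀ a, g a = F {x | ∃ b, ∃ _ : b < a,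
      x = (g b).1 ∨ x = (g b).2.1 ∨ x = (g b).2.2} :=
    ⟨hwf.wf.fix fun a ih => F {x | ∃ b, ∃ h : b < a,
      x = (ih b h).1 ∨ x = (ih b h).2.1 ∨ x = (ih b h).2.2}, fun a => hwf.wf.fix_eq _ a⟩
  have hD : ∀ a : W, {x | ∃ b, ∃ _ : b < a,
      x = (g b).1 ∨ x = (g b).2.1 ∨ x = (g b).2.2}.Countable := by
    intro a
    have h1 : {x | ∃ b, ∃ _ : b < a, x = (g b).1 ∨ x = (g b).2.1 ∨ x = (g b).2.2} ⊆
        ⋃ b ∈ Iio a, {(g b).1, (g b).2.1, (g b).2.2} := by
      rintro x ⟨b, hb, hx⟩
      simp only [mem_iUnion]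
      refine ⟨b, hb, ?_⟩
      rcases hx with hx | hx | hx <;> simp [hx]
    refine Countable.mono h1 (Countable.biUnion (hIio a) fun b _ => ?_)
    exact ((finite_singleton _).insert _ |>.insert _).countable
  have h1 : ∀ a, (g a).1 < (g a).2.1 := fun a => by
    have := (hF _ (hD a)).1
    rwa [← hg a] at this
  have h2 : ∀ a, (g a).2.1 < (g a).2.2 := fun a => by
    have := (hF _ (hD a)).2.1
    rwa [← hg a] at this
  have h3 : ∀ a b, b < a → (g b).2.1 ∉ Icc (g a).1 (g a).2.2 := fun a b hb hmem => by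
    have := (hF _ (hD a)).2.2.1
    rw [← hg a] at this
    exact Set.disjoint_left.1 this hmem ⟨b, hb, Or.inr (Or.inl rfl)⟩
  have h4 : ∀ a, f (g a).1 ≠ f (g a).2.1 := fun a => by
    have := (hF _ (hD a)).2.2.2.1
    rwa [← hg a] at this
  have h5 : ∀ a, f (g a).2.1 ≠ f (g a).2.2 := fun a => by
    have := (hF _ (hD a)).2.2.2.2
    rwa [← hg a] at this
  by_cases hcase : ∀ e : L, {a | e ∈ Icc (g a).1 (g a).2.2}.Countable
  · refine H1 W (fun a => (g a).1) (fun a => (g a).2.1) hunc (fun a => (h1 a).le) h4 fun e => ?_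
    refine (hcase e).mono ?_
    intro a ha
    exact ⟨ha.1, ha.2.trans (h2 a).le⟩
  · push Not at hcase
    obtain ⟨e, he⟩ := hcase
    have hA : Uncountable {a | e ∈ Icc (g a).1 (g a).2.2} := by
      rw [← not_countable_iff]
      intro h
      exact he (Set.countable_coe_iff.1 h)
    have key : ∀ i j : {a | e ∈ Icc (g a).1 (g a).2.2}, (j : W) < i → ∀ x,
        x ∈ Icc (if e < (g j).2.1 then (g j).2.1 else (g j).1)
          (if e < (g j).2.1 then (g j).2.2 else (g j).2.1) →
        x ∈ Icc (if e < (g i).2.1 then (g i).2.1 else (g i).1)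
          (if e < (g i).2.1 then (g i).2.2 else (g i).2.1) → False := by
      intro i j hji x hxj hxi
      have hi : e ∈ Icc (g i).1 (g i).2.2 := i.2
      have hQ := h3 i j hji
      have hxi' : x ∈ Icc (g i).1 (g i).2.2 := by
        by_cases h : e < (g i).2.1
        · rw [if_pos h, if_pos h] at hxi
          exact ⟨(h1 i).le.trans hxi.1, hxi.2⟩
        · rw [if_neg h, if_neg h] at hxi
          exact ⟨hxi.1, hxi.2.trans (h2 i).le⟩
      by_cases h : e < (g j).2.1
      · rw [if_pos h, if_pos h] at hxj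
        exact hQ ⟨hi.1.trans h.le, hxj.1.trans hxi'.2⟩
      · rw [if_neg h, if_neg h] at hxj
        exact hQ ⟨hxi'.1.trans hxj.2, (not_lt.1 h).trans hi.2⟩
    refine H1 {a | e ∈ Icc (g a).1 (g a).2.2}
      (fun j => if e < (g j).2.1 then (g j).2.1 else (g j).1)
      (fun j => if e < (g j).2.1 then (g j).2.2 else (g j).2.1) hA ?_ ?_ ?_
    · intro j
      by_cases h : e < (g j).2.1
      · simp only [if_pos h]
        exact (h2 j).le
      · simp only [if_neg h]
        exact (h1 j).le
    · intro j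
      by_cases h : e < (g j).2.1
      · simp only [if_pos h]
        exact h5 j
      · simp only [if_neg h]
        exact h4 j
    · intro x
      apply Set.Subsingleton.countable
      intro i hi j hj
      rcases lt_trichotomy (i : W) j with h | h | h
      · exact (key j i h x hi hj).elim
      · exact Subtype.ext h
      · exact (key i j h x hj hi).elim

end Pool.Agent.K3h58.PS
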